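import Pool.Agent.Lib.FcWild.State
import Pool.Agent.Lib.FcWild.Bridge

/-!
Over every field there is a coalgebra which is strongly quasifinite (hence f-quasifinite) and
wild but not fc-wild.
-/

universe u

namespace Pool.Agent.Results.MP_a5ef4b_al.WildNotFcWild

open Pool.Agent.Lib.FcWild

/-- For every field `K` there is a `K`-coalgebra `C` which is strongly quasifinite and
f-quasifinite, which is wild, and which is not fc-wild. -/
theorem result (K : Type u) [Field K] :
    ∃ C : CoalgCat.{u} K,
      IsStronglyQuasifin C ∧ IsFQuasifin C ∧ IsWildCoalg C ∧ ¬ IsFcWildCoalg C := by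
  have h : IsStronglyQuasifin (CoalgCat.of K (Wld K)) :=
    isStronglyQuasifin_of_old wld_isStronglyQuasifinite
  exact ⟨CoalgCat.of K (Wld K), h, fun Y σ q hσ hq hs _ => h Y σ q hσ hq hs,
    isWildCoalg_of_old (wld_isWild K), Rich.not_isFcWildCoalg (wldRich K)⟩

end Pool.Agent.Results.MP_a5ef4b_al.WildNotFcWild
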